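import Pool.Agent.Q35.TT.Stm

/-!
# Project TT (helper35): the inequalities at all places of a number field (job GLO, helper237)
-/

set_option autoImplicit false

open Pool.Agent.Y720.MZ Height AdmissibleAbsValues Pool.Agent.Q35.TT

namespace Pool.Agent.Q237.TT

section
variable {K : Type} [Field K]

lemma bq_one (a : Fin 5 → K) (t : K) :
    bq a ![1, t] = a 0 + a 1 * t + a 2 * t ^ 2 + a 3 * t ^ 3 + a 4 * t ^ 4 := by
  unfold bq
  simp

lemma term_le (v : AbsoluteValue K ℝ) (a t : K) (j : ℕ) (hj : j ≤ 4) :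
    v (a * t ^ j) ≤ v a * max 1 (v t) ^ 4 := by
  rw [map_mul, map_pow]
  refine mul_le_mul_of_nonneg_left ?_ (v.nonneg _)
  calc v t ^ j ≤ max 1 (v t) ^ j := by
        gcongr
        exact le_max_right _ _
    _ ≤ max 1 (v t) ^ 4 := pow_le_pow_right₀ (le_max_left _ _) hj

lemma bq_le (v : AbsoluteValue K ℝ) (a : Fin 5 → K) (t : K) :
    v (bq a ![1, t]) ≤ (∑ j, v (a j)) * max 1 (v t) ^ 4 := by
  rw [bq_one, Fin.sum_univ_five]
  have h0 := term_le v (a 0) t 0 (by norm_num)
  have h1 := term_le v (a 1) t 1 (by norm_num)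
  have h2 := term_le v (a 2) t 2 (by norm_num)
  have h3 := term_le v (a 3) t 3 (by norm_num)
  have h4 := term_le v (a 4) t 4 (by norm_num)
  rw [pow_zero, mul_one] at h0
  rw [pow_one] at h1
  have e1 := v.add_le (a 0 + a 1 * t + a 2 * t ^ 2 + a 3 * t ^ 3) (a 4 * t ^ 4)
  have e2 := v.add_le (a 0 + a 1 * t + a 2 * t ^ 2) (a 3 * t ^ 3)
  have e3 := v.add_le (a 0 + a 1 * t) (a 2 * t ^ 2)
  have e4 := v.add_le (a 0) (a 1 * t)
  linarith

lemma bq_le_na {v : AbsoluteValue K ℝ} (hv : IsNonarchimedean v) (a : Fin 5 → K) (t : K)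
    (ha : ∀ j, v (a j) ≤ 1) : v (bq a ![1, t]) ≤ max 1 (v t) ^ 4 := by
  rw [bq_one]
  have h : ∀ (j : Fin 5) (k : ℕ), k ≤ 4 → v (a j * t ^ k) ≤ max 1 (v t) ^ 4 := by
    intro j k hk
    refine (term_le v (a j) t k hk).trans ?_
    have : (0 : ℝ) ≤ max 1 (v t) ^ 4 := by positivity
    nlinarith [ha j]
  have h0 := h 0 0 (by norm_num)
  have h1 := h 1 1 (by norm_num)
  rw [pow_zero, mul_one] at h0
  rw [pow_one] at h1
  refine (hv _ _).trans (max_le ((hv _ _).trans (max_le ((hv _ _).trans (max_le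
    ((hv _ _).trans (max_le h0 h1)) (h 2 2 (by norm_num)))) (h 3 3 (by norm_num))))
    (h 4 4 (by norm_num)))

/-- the scaling -/
lemma exists_m (v : AbsoluteValue K ℝ) (t : K) : ∃ m : K, m ≠ 0 ∧ v m = max 1 (v t) := by
  rcases le_or_gt (v t) 1 with h | h
  · exact ⟨1, one_ne_zero, by rw [map_one, max_eq_left h]⟩
  · refine ⟨t, ?_, (max_eq_right h.le).symm⟩
    rintro rfl
    rw [map_zero] at h
    exact absurd h (not_lt.2 zero_le_one)

/-- the sum of the absolute values of the coefficients -/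
noncomputable def sc (v : AbsoluteValue K ℝ) (c : Fin 5 → Fin 5 → K) : ℝ :=
  1 + ∑ i, ∑ j, v (c i j)

lemma sc_one (v : AbsoluteValue K ℝ) (c : Fin 5 → Fin 5 → K) : 1 ≤ sc v c := by
  unfold sc
  have : 0 ≤ ∑ i, ∑ j, v (c i j) :=
    Finset.sum_nonneg fun i _ => Finset.sum_nonneg fun j _ => v.nonneg _
  linarith

lemma cx_le (v : AbsoluteValue K ℝ) (c : Fin 5 → Fin 5 → K) (t : K) (i : Fin 5) :
    v (cx c ![1, t] i) ≤ sc v c * max 1 (v t) ^ 4 := by
  refine (bq_le v (c i) t).trans ?_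
  have h1 : ∑ j, v (c i j) ≤ ∑ i, ∑ j, v (c i j) :=
    Finset.single_le_sum (f := fun i => ∑ j, v (c i j))
      (fun i _ => Finset.sum_nonneg fun j _ => v.nonneg _) (Finset.mem_univ i)
  have h2 : ∑ j, v (c i j) ≤ sc v c := by unfold sc; linarith
  exact mul_le_mul_of_nonneg_right h2 (by positivity)

end

/-- GLO: the inequalities at all places of a number field. -/
theorem glo (h1 : S_ARC) (h2 : S_NAR) (h3 : S_GLB) (h4 : S_PLA) (h5 : S_LOC) (h6 : S_LOG) :
    S_GLO := by
  intro K _ _ c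
  obtain ⟨p1, p2, p3⟩ := h4 K
  have key : ∀ v : AbsoluteValue K ℝ, ∃ C : ℝ, 1 ≤ C ∧
      (v ∈ nonarchAbsVal (K := K) → (∃ p, Gd v p) → (∀ i j, v (c i j) ≤ 1) → C = 1) ∧
      ∀ (s t w : K) (n : ℕ), n ≠ 0 → Tor (cx c ![1, t]) s w n → ∀ k,
        (v ∈ archAbsVal (K := K) → v (bd (cx c ![1, t]) ![1, s] k) ^ 2 ≤
          C * (n : ℝ) ^ 4 * v (F4 c ![1, s] ![1, t]) * max 1 (v s) ^ 2 * max 1 (v t) ^ 4) ∧
        (v ∈ nonarchAbsVal (K := K) → v (bd (cx c ![1, t]) ![1, s] k) ^ 2 ≤
          C * v (F4 c ![1, s] ![1, t]) * max 1 (v s) ^ 2 * max 1 (v t) ^ 4) := by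
    intro v
    have hA := sc_one v c
    by_cases hna : v ∈ nonarchAbsVal (K := K)
    · have hv := isNonarchimedean v hna
      have hnat : ∀ n : ℕ, v (n : K) ≤ 1 := fun n => hv.apply_natCast_le_one
      have harch : v ∉ archAbsVal (K := K) := by
        intro h
        have e1 := p1 v h 2
        have e2 := hnat 2
        rw [e1] at e2
        norm_num at e2
      by_cases hg : (∃ p, Gd v p) ∧ ∀ i j, v (c i j) ≤ 1
      · obtain ⟨⟨p, hp⟩, hc⟩ := hg
        refine ⟨1, le_rfl, fun _ _ _ => rfl, ?_⟩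
        intro s t w n hn hT k
        refine ⟨fun h => absurd h harch, fun _ => ?_⟩
        obtain ⟨m, hm0, hm⟩ := exists_m v t
        have e2 : v (2 : K) = 1 := by
          have := hp.unit 2 (by norm_num) (by have := hp.p5; omega)
          exact_mod_cast this
        have e3 : v (3 : K) = 1 := by
          have := hp.unit 3 (by norm_num) (by have := hp.p5; omega)
          exact_mod_cast this
        have := h6 K v hv e2 e3 (h3 K v p hp) (cx c ![1, t]) m hm0
          (fun i => by rw [hm]; exact bq_le_na hv (c i) t (hc i)) s w n hn hT k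
        rw [hm] at this
        rw [one_mul]
        exact this
      · have e30 : (3 : K) ≠ 0 := by norm_num
        have hv3 : 0 < v (3 : K) := v.pos e30
        have hv3' : v (3 : K) ≤ 1 := by exact_mod_cast hnat 3
        have hv2' : v (2 : K) ≤ 1 := by exact_mod_cast hnat 2
        set A := sc v c with hAdef
        set A' : ℝ := (16 * A ^ 2 + 137 * A ^ 3) / v 3 ^ 3 with hA'
        have hA2 : (1 : ℝ) ≤ A ^ 2 := one_le_pow₀ hA
        have hA3 : (1 : ℝ) ≤ A ^ 3 := one_le_pow₀ hA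
        have hv33 : 0 < v (3 : K) ^ 3 := by positivity
        have hA'1 : 1 ≤ A' := by
          rw [hA', le_div_iff₀ hv33]
          have : v (3 : K) ^ 3 ≤ 1 := pow_le_one₀ hv3.le hv3'
          linarith
        obtain ⟨B, hB, hLB⟩ := h2 K v hv (p2 v hna) A' hA'1
        have hq1 : 16 * A ^ 2 ≤ A' * v 3 := by
          rw [hA', div_mul_eq_mul_div, le_div_iff₀ hv33]
          have : v (3 : K) ^ 3 ≤ v 3 := by
            calc v (3 : K) ^ 3 ≤ v 3 ^ 1 := pow_le_pow_of_le_one hv3.le hv3' (by norm_num)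
              _ = v 3 := pow_one _
          nlinarith
        have hq2 : 137 * A ^ 3 ≤ A' * v 3 ^ 3 := by
          rw [hA', div_mul_cancel₀ _ hv33.ne']
          linarith
        refine ⟨(144 * A + 12 * B) / v 3, ?_, fun _ hg1 hg2 => absurd ⟨hg1, hg2⟩ hg, ?_⟩
        · rw [le_div_iff₀ hv3]
          linarith
        intro s t w n hn hT k
        refine ⟨fun h => absurd h harch, fun _ => ?_⟩
        obtain ⟨m, hm0, hm⟩ := exists_m v t
        have := h5 K v A A' B 0 hA hB (by linarith) hq1 hq2 (by linarith) (by linarith) hLB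
          (cx c ![1, t]) m hm0 (fun i => by rw [hm]; exact cx_le v c t i) s w n hn hT k
        rw [hm, pow_zero, mul_one] at this
        have e : (144 * A + 12 * B) / v 3 * v (F4 c ![1, s] ![1, t]) * max 1 (v s) ^ 2 *
            max 1 (v t) ^ 4 = ((144 * A + 12 * B) * v (bq (cx c ![1, t]) ![1, s]) *
              max 1 (v s) ^ 2 * max 1 (v t) ^ 4) / v 3 := by
          unfold F4
          ring
        rw [e, le_div_iff₀ hv3, mul_comm]
        exact this
    · by_cases har : v ∈ archAbsVal (K := K)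
      · have hn := p1 v har
        have e3 : v (3 : K) = 3 := by exact_mod_cast hn 3
        have e2 : v (2 : K) = 2 := by exact_mod_cast hn 2
        set A := sc v c with hAdef
        have hA2 : (1 : ℝ) ≤ A ^ 2 := one_le_pow₀ hA
        have hA3 : (1 : ℝ) ≤ A ^ 3 := one_le_pow₀ hA
        obtain ⟨B, hB, hLB⟩ := h1 (16 * A ^ 2 + 137 * A ^ 3) (by linarith)
        refine ⟨144 * A + 12 * B, by linarith, fun h => absurd h hna, ?_⟩
        intro s t w n hn' hT k
        refine ⟨fun _ => ?_, fun h => absurd h hna⟩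
        obtain ⟨m, hm0, hm⟩ := exists_m v t
        have := h5 K v A (16 * A ^ 2 + 137 * A ^ 3) B 4 hA hB (by linarith)
          (by rw [e3]; linarith) (by rw [e3]; linarith) e2.le e3.le (hLB K v hn)
          (cx c ![1, t]) m hm0 (fun i => by rw [hm]; exact cx_le v c t i) s w n hn' hT k
        rw [hm, e3] at this
        have hsq : 0 ≤ v (bd (cx c ![1, t]) ![1, s] k) ^ 2 := by positivity
        unfold F4
        linarith
      · exact ⟨1, le_rfl, fun h => absurd h hna,
          fun s t w n _ _ k => ⟨fun h => absurd h har, fun h => absurd h hna⟩⟩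
  choose C hC1 hC2 hC3 using key
  refine ⟨C, hC1, ?_, ?_⟩
  · have hfin : ∀ i j, {v : AbsoluteValue K ℝ | v ∈ nonarchAbsVal (K := K) ∧
        ¬ v (c i j) ≤ 1}.Finite := by
      intro i j
      rcases eq_or_ne (c i j) 0 with h | h
      · rw [h]
        simp
      · have h7 := hasFiniteMulSupport h
        refine (h7.image (fun v : nonarchAbsVal (K := K) => v.val)).subset ?_
        rintro v ⟨hv, hv'⟩
        refine ⟨⟨v, hv⟩, ?_, rfl⟩
        intro h8
        exact hv' (le_of_eq h8)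
    have hfin2 : (⋃ i, ⋃ j, {v : AbsoluteValue K ℝ | v ∈ nonarchAbsVal (K := K) ∧
        ¬ v (c i j) ≤ 1}).Finite :=
      Set.finite_iUnion fun i => Set.finite_iUnion fun j => hfin i j
    refine (p3.union hfin2).subset ?_
    rintro v ⟨hv, hv'⟩
    by_cases hg : ∃ p, Gd v p
    · right
      by_contra hcon
      simp only [Set.mem_iUnion, Set.mem_setOf_eq, not_exists, not_and, not_not] at hcon
      exact hv' (hC2 v hv hg fun i j => hcon i j hv)
    · left
      exact ⟨hv, hg⟩
  · intro s t w n hn hT k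
    exact ⟨fun v hv => (hC3 v s t w n hn hT k).1 hv, fun v hv => (hC3 v s t w n hn hT k).2 hv⟩

end Pool.Agent.Q237.TT
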