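import Pool.Agent.Q35.TT.Stm

/-!
# Project TT (helper35): the product of the local inequalities (job PRO, helper237)
-/

set_option autoImplicit false

open Height AdmissibleAbsValues Function

namespace Pool.Agent.Q237.TT

section
variable {K : Type*} [Field K] [AdmissibleAbsValues K]

lemma fms_iSup {ι : Type*} [Finite ι] {x : ι → K} (hx : x ≠ 0) :
    (fun v : nonarchAbsVal (K := K) ↦ ⨆ i, v.val (x i)).HasFiniteMulSupport := by
  have : Nonempty {j // x j ≠ 0} := nonempty_subtype.mpr <| ne_iff.mp hx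
  suffices h : (fun v : nonarchAbsVal (K := K) ↦
      ⨆ i : {j // x j ≠ 0}, v.val (x i)).HasFiniteMulSupport by
    have e : (fun v : nonarchAbsVal (K := K) ↦ ⨆ i, v.val (x i)) =
        fun v : nonarchAbsVal (K := K) ↦ ⨆ i : {j // x j ≠ 0}, v.val (x i) := by
      funext v
      obtain ⟨i, hi⟩ : ∃ j, x j ≠ 0 := Function.ne_iff.mp hx
      have : Nonempty ι := .intro i
      refine le_antisymm (ciSup_le fun j ↦ ?_)
        (ciSup_le fun ⟨j, hj⟩ ↦ Finite.le_ciSup_of_le j le_rfl)
      rcases eq_or_ne (x j) 0 with h | h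
      · rw [h, v.val.map_zero]
        exact Real.iSup_nonneg' ⟨⟨i, hi⟩, v.val.nonneg ..⟩
      · exact Finite.le_ciSup_of_le (⟨j, h⟩ : {j // x j ≠ 0}) le_rfl
    rw [e]
    exact h
  fun_prop (disch := grind)

lemma fms_max (x : K) :
    (fun v : nonarchAbsVal (K := K) ↦ max 1 (v.val x)).HasFiniteMulSupport := by
  rcases eq_or_ne x 0 with rfl | hx
  · simp [HasFiniteMulSupport]
  fun_prop

/-- the product of the local inequalities -/
theorem pro_aux (C : AbsoluteValue K ℝ → ℝ) (hC : ∀ v, 1 ≤ C v)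
    (hf : {v : AbsoluteValue K ℝ | v ∈ nonarchAbsVal (K := K) ∧ C v ≠ 1}.Finite) :
    ∃ D : ℝ, 0 < D ∧ ∀ (ι : Type) [Finite ι] [Nonempty ι] (z : ι → K) (u s t : K) (a b : ℕ)
      (N : ℝ), z ≠ 0 → u ≠ 0 → 1 ≤ N →
      (∀ v ∈ archAbsVal (K := K), ∀ i, v (z i) ≤
        C v * N * v u * max 1 (v s) ^ a * max 1 (v t) ^ b) →
      (∀ v ∈ nonarchAbsVal (K := K), ∀ i, v (z i) ≤
        C v * v u * max 1 (v s) ^ a * max 1 (v t) ^ b) →
      mulHeight z ≤ D * N ^ totalWeight K * mulHeight₁ s ^ a * mulHeight₁ t ^ b := by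
  have hCf : (fun v : nonarchAbsVal (K := K) ↦ C v.val).HasFiniteMulSupport := by
    refine (hf.preimage (f := fun v : nonarchAbsVal (K := K) ↦ v.val)
      Subtype.val_injective.injOn).subset ?_
    intro v hv
    exact ⟨v.2, hv⟩
  refine ⟨((archAbsVal (K := K)).map C).prod * ∏ᶠ v : nonarchAbsVal (K := K), C v.val, ?_, ?_⟩
  · have h1 : 1 ≤ ((archAbsVal (K := K)).map C).prod := Multiset.one_le_prod_map fun v _ ↦ hC v
    have h2 : 1 ≤ ∏ᶠ v : nonarchAbsVal (K := K), C v.val := one_le_finprod fun v ↦ hC v.val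
    exact mul_pos (by linarith) (by linarith)
  intro ι _ _ z u s t a b N hz hu hN h1 h2
  rw [mulHeight_eq hz]
  have hu' := product_formula hu
  have e1 : (archAbsVal.map fun v : AbsoluteValue K ℝ ↦ ⨆ i, v (z i)).prod ≤
      (archAbsVal.map fun v : AbsoluteValue K ℝ ↦
        C v * N * v u * max 1 (v s) ^ a * max 1 (v t) ^ b).prod := by
    refine Multiset.prod_map_le_prod_map₀ _ _
      (fun v _ ↦ Real.iSup_nonneg_of_nonnegHomClass v _) fun v hv ↦ ciSup_le fun i ↦ h1 v hv i
  have e2 : (∏ᶠ v : nonarchAbsVal (K := K), ⨆ i, v.val (z i)) ≤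
      ∏ᶠ v : nonarchAbsVal (K := K),
        (C v.val * v.val u * max 1 (v.val s) ^ a * max 1 (v.val t) ^ b) := by
    refine finprod_le_finprod (fms_iSup hz)
      (fun v ↦ Real.iSup_nonneg_of_nonnegHomClass v.val _) ?_
      (fun v ↦ ciSup_le fun i ↦ h2 v.val v.2 i)
    exact ((hCf.mul (hasFiniteMulSupport hu)).mul ((fms_max s).pow a)).mul ((fms_max t).pow b)
  have e3 : (archAbsVal.map fun v : AbsoluteValue K ℝ ↦
        C v * N * v u * max 1 (v s) ^ a * max 1 (v t) ^ b).prod =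
      ((archAbsVal (K := K)).map C).prod * N ^ totalWeight K * (archAbsVal.map (· u)).prod *
        (archAbsVal.map fun v : AbsoluteValue K ℝ ↦ max (v s) 1).prod ^ a *
        (archAbsVal.map fun v : AbsoluteValue K ℝ ↦ max (v t) 1).prod ^ b := by
    rw [Multiset.prod_map_mul, Multiset.prod_map_mul, Multiset.prod_map_mul,
      Multiset.prod_map_mul, Multiset.prod_map_pow, Multiset.prod_map_pow, Multiset.map_const',
      Multiset.prod_replicate]
    simp only [max_comm (1 : ℝ)]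
    rfl
  have e4 : (∏ᶠ v : nonarchAbsVal (K := K),
        (C v.val * v.val u * max 1 (v.val s) ^ a * max 1 (v.val t) ^ b)) =
      (∏ᶠ v : nonarchAbsVal (K := K), C v.val) * (∏ᶠ v : nonarchAbsVal (K := K), v.val u) *
        (∏ᶠ v : nonarchAbsVal (K := K), max (v.val s) 1) ^ a *
        (∏ᶠ v : nonarchAbsVal (K := K), max (v.val t) 1) ^ b := by
    have g1 := finprod_mul_distrib ((hCf.mul (hasFiniteMulSupport hu)).mul ((fms_max s).pow a))
      ((fms_max t).pow b)
    have g2 := finprod_mul_distrib (hCf.mul (hasFiniteMulSupport hu)) ((fms_max s).pow a)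
    have g3 := finprod_mul_distrib hCf (hasFiniteMulSupport hu)
    have g4 := finprod_pow (fms_max s) a
    have g5 := finprod_pow (fms_max t) b
    simp only [Pi.mul_apply, Pi.pow_apply] at g1 g2 g3 g4 g5
    rw [g1, g2, g3, ← g4, ← g5]
    simp only [max_comm (1 : ℝ)]
  have e5 : 0 ≤ ∏ᶠ v : nonarchAbsVal (K := K), ⨆ i, v.val (z i) :=
    finprod_nonneg fun v ↦ Real.iSup_nonneg_of_nonnegHomClass v.val _
  have e6 : 0 ≤ (archAbsVal.map fun v : AbsoluteValue K ℝ ↦
        C v * N * v u * max 1 (v s) ^ a * max 1 (v t) ^ b).prod := by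
    refine Multiset.prod_map_nonneg fun v _ ↦ ?_
    have := hC v
    positivity
  calc _ ≤ _ := mul_le_mul e1 e2 e5 e6
    _ = _ := by
      rw [e3, e4, mulHeight₁_eq, mulHeight₁_eq]
      linear_combination (((archAbsVal (K := K)).map C).prod * N ^ totalWeight K *
        (archAbsVal.map fun v : AbsoluteValue K ℝ ↦ max (v s) 1).prod ^ a *
        (archAbsVal.map fun v : AbsoluteValue K ℝ ↦ max (v t) 1).prod ^ b *
        (∏ᶠ v : nonarchAbsVal (K := K), C v.val) *
        (∏ᶠ v : nonarchAbsVal (K := K), max (v.val s) 1) ^ a *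
        (∏ᶠ v : nonarchAbsVal (K := K), max (v.val t) 1) ^ b) * hu'

end

/-- PRO: the product of the local inequalities. -/
theorem pro : Pool.Agent.Q35.TT.S_PRO := by
  intro K _ _ C hC hf
  exact pro_aux C hC hf

end Pool.Agent.Q237.TT
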