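import Pool.Agent.Q237.TT.GLO
import Pool.Agent.Y718.FG

/-!
# Project TT (helper35): the order of the torsion points in the family (job ORD, helper237)
-/

set_option autoImplicit false

open Pool.Agent.Y720.MZ Height AdmissibleAbsValues Pool.Agent.Q35.TT Pool.Agent.Y718.X

namespace Pool.Agent.Q237.TT

section
variable {K : Type} [Field K]

/-- the invariants of the quartic -/
def iI (a : Fin 5 → K) : K := 12 * a 0 * a 4 - 3 * a 1 * a 3 + a 2 ^ 2

/-- the invariants of the quartic -/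
def iJ (a : Fin 5 → K) : K :=
  72 * a 0 * a 2 * a 4 + 9 * a 1 * a 2 * a 3 - 27 * a 0 * a 3 ^ 2 - 27 * a 4 * a 1 ^ 2 -
    2 * a 2 ^ 3

lemma short_b [CharZero K] (a : Fin 5 → K) (s w : K) (hw : w ^ 2 = bq a ![1, s]) :
    rb w (tay a s 0) (tay a s 2) (tay a s 3) + 2 * (-(tay a s 1) / 3) * tay a s 1 +
      3 * (-(tay a s 1) / 3) ^ 2 = -(iI a) / 3 := by
  rw [bq_one] at hw
  have h3 : (3 : K) ≠ 0 := by norm_num
  unfold rb iI
  simp only [tay, Matrix.cons_val_zero, Matrix.cons_val_one, Matrix.cons_val]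
  field_simp
  linear_combination (-(12 * a 4)) * hw

lemma short_c [CharZero K] (a : Fin 5 → K) (s w : K) (hw : w ^ 2 = bq a ![1, s]) :
    rc w (tay a s 0) (tay a s 1) (tay a s 2) (tay a s 3) +
      (-(tay a s 1) / 3) * rb w (tay a s 0) (tay a s 2) (tay a s 3) +
      (-(tay a s 1) / 3) ^ 2 * tay a s 1 + (-(tay a s 1) / 3) ^ 3 = -(iJ a) / 27 := by
  rw [bq_one] at hw
  have h3 : (3 : K) ≠ 0 := by norm_num
  unfold rb rc iJ
  simp only [tay, Matrix.cons_val_zero, Matrix.cons_val_one, Matrix.cons_val]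
  field_simp
  linear_combination (27 * (27 * ((a 3 + 4 * a 4 * s) ^ 2 -
    4 * (a 2 + 3 * a 3 * s + 6 * a 4 * s ^ 2) * a 4) +
    36 * (a 2 + 3 * a 3 * s + 6 * a 4 * s ^ 2) * a 4)) * hw

lemma dsc_shift (a b c r u : K) (hu : u ≠ 0) :
    dsc ((a + 3 * r) / u ^ 2) ((b + 2 * r * a + 3 * r ^ 2) / u ^ 4)
      ((c + r * b + r ^ 2 * a + r ^ 3) / u ^ 6) = dsc a b c / u ^ 12 := by
  unfold dsc
  field_simp
  ring

lemma dsc_tay (a : Fin 5 → K) (s w : K) (hw : w ^ 2 = bq a ![1, s]) :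
    dsc (tay a s 1) (rb w (tay a s 0) (tay a s 2) (tay a s 3))
      (rc w (tay a s 0) (tay a s 1) (tay a s 2) (tay a s 3)) =
      dc (a 0) (a 1) (a 2) (a 3) (a 4) := by
  rw [bq_one] at hw
  have h := dc_shift s (a 0) (a 1) (a 2) (a 3) (a 4)
  rw [← h]
  unfold dc rb rc
  simp only [tay, Matrix.cons_val_zero, Matrix.cons_val_one, Matrix.cons_val]
  rw [hw]
  congr 1 <;> ring

/-- the polynomials with the coefficients of the family -/
noncomputable def pc (c : Fin 5 → Fin 5 → K) (i : Fin 5) : Polynomial K :=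
  .C (c i 0) + .C (c i 1) * .X + .C (c i 2) * .X ^ 2 + .C (c i 3) * .X ^ 3 + .C (c i 4) * .X ^ 4

lemma pc_eval (c : Fin 5 → Fin 5 → K) (i : Fin 5) (t : K) :
    (pc c i).eval t = cx c ![1, t] i := by
  unfold cx
  rw [bq_one]
  simp [pc]

lemma pc_deg (c : Fin 5 → Fin 5 → K) (i : Fin 5) : (pc c i).natDegree ≤ 4 := by
  unfold pc
  compute_degree

lemma dsc_deg {a b c : Polynomial K} (ha : a.natDegree ≤ 4) (hb : b.natDegree ≤ 8)
    (hc : c.natDegree ≤ 12) : (dsc a b c).natDegree ≤ 24 := by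
  have e : dsc a b c = a ^ 2 * b ^ 2 - 4 * b ^ 3 - 4 * (a ^ 3 * c) - 27 * c ^ 2 +
      18 * (a * b * c) := by
    unfold dsc
    ring
  have h1 : (a ^ 2 * b ^ 2).natDegree ≤ 24 :=
    (Polynomial.natDegree_mul_le_of_le (Polynomial.natDegree_pow_le_of_le 2 ha)
      (Polynomial.natDegree_pow_le_of_le 2 hb)).trans (by norm_num)
  have h2 : (b ^ 3).natDegree ≤ 24 :=
    (Polynomial.natDegree_pow_le_of_le 3 hb).trans (by norm_num)
  have h3 : (a ^ 3 * c).natDegree ≤ 24 :=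
    (Polynomial.natDegree_mul_le_of_le (Polynomial.natDegree_pow_le_of_le 3 ha) hc).trans
      (by norm_num)
  have h4 : (c ^ 2).natDegree ≤ 24 :=
    (Polynomial.natDegree_pow_le_of_le 2 hc).trans (by norm_num)
  have h5 : (a * b * c).natDegree ≤ 24 :=
    (Polynomial.natDegree_mul_le_of_le (Polynomial.natDegree_mul_le_of_le ha hb) hc).trans
      (by norm_num)
  have hn : ∀ (n : ℕ) (f : Polynomial K), f.natDegree ≤ 24 →
      ((n : Polynomial K) * f).natDegree ≤ 24 := by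
    intro n f hf
    refine (Polynomial.natDegree_mul_le_of_le (m := 0) (by
      rw [Polynomial.natDegree_natCast]) hf).trans (by norm_num)
  have h2' := hn 4 _ h2
  have h3' := hn 4 _ h3
  have h4' := hn 27 _ h4
  have h5' := hn 18 _ h5
  push_cast at h2' h3' h4' h5'
  rw [e]
  have s1 : (a ^ 2 * b ^ 2 - 4 * b ^ 3).natDegree ≤ 24 :=
    (Polynomial.natDegree_sub_le_of_le h1 h2').trans (by simp)
  have s2 : (a ^ 2 * b ^ 2 - 4 * b ^ 3 - 4 * (a ^ 3 * c)).natDegree ≤ 24 :=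
    (Polynomial.natDegree_sub_le_of_le s1 h3').trans (by simp)
  have s3 : (a ^ 2 * b ^ 2 - 4 * b ^ 3 - 4 * (a ^ 3 * c) - 27 * c ^ 2).natDegree ≤ 24 :=
    (Polynomial.natDegree_sub_le_of_le s2 h4').trans (by simp)
  exact Polynomial.natDegree_add_le_of_degree_le s3 h5'

/-- the discriminant of the family -/
noncomputable def pd (c : Fin 5 → Fin 5 → K) : Polynomial K :=
  dc (pc c 0) (pc c 1) (pc c 2) (pc c 3) (pc c 4)

lemma pd_eval (c : Fin 5 → Fin 5 → K) (t : K) : (pd c).eval t =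
    dc (cx c ![1, t] 0) (cx c ![1, t] 1) (cx c ![1, t] 2) (cx c ![1, t] 3) (cx c ![1, t] 4) := by
  have h := map_dc (Polynomial.evalRingHom t) (pc c 0) (pc c 1) (pc c 2) (pc c 3) (pc c 4)
  simp only [Polynomial.coe_evalRingHom, pc_eval] at h
  exact h.symm

lemma pd_deg (c : Fin 5 → Fin 5 → K) : (pd c).natDegree ≤ 24 := by
  have hn : ∀ (n : ℕ) (d : ℕ) (f : Polynomial K), f.natDegree ≤ d →
      ((n : Polynomial K) * f).natDegree ≤ d := by
    intro n d f hf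
    refine (Polynomial.natDegree_mul_le_of_le (m := 0) (by
      rw [Polynomial.natDegree_natCast]) hf).trans (by simp)
  unfold pd dc
  refine dsc_deg (pc_deg c 2) ?_ ?_
  · have h1 : (pc c 1 * pc c 3).natDegree ≤ 8 :=
      (Polynomial.natDegree_mul_le_of_le (pc_deg c 1) (pc_deg c 3)).trans (by norm_num)
    have h2 : (pc c 0 * pc c 4).natDegree ≤ 8 :=
      (Polynomial.natDegree_mul_le_of_le (pc_deg c 0) (pc_deg c 4)).trans (by norm_num)
    have h2' := hn 4 8 _ h2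
    push_cast at h2'
    rw [mul_assoc 4]
    exact (Polynomial.natDegree_sub_le_of_le h1 h2').trans (by simp)
  · have h1 : (pc c 1 ^ 2 * pc c 4).natDegree ≤ 12 :=
      (Polynomial.natDegree_mul_le_of_le (Polynomial.natDegree_pow_le_of_le 2 (pc_deg c 1))
        (pc_deg c 4)).trans (by norm_num)
    have h2 : (pc c 0 * pc c 3 ^ 2).natDegree ≤ 12 :=
      (Polynomial.natDegree_mul_le_of_le (pc_deg c 0)
        (Polynomial.natDegree_pow_le_of_le 2 (pc_deg c 3))).trans (by norm_num)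
    have h3 : (pc c 0 * pc c 2 * pc c 4).natDegree ≤ 12 :=
      (Polynomial.natDegree_mul_le_of_le (Polynomial.natDegree_mul_le_of_le (pc_deg c 0)
        (pc_deg c 2)) (pc_deg c 4)).trans (by norm_num)
    have h3' := hn 4 12 _ h3
    push_cast at h3'
    have e : 4 * pc c 0 * pc c 2 * pc c 4 = 4 * (pc c 0 * pc c 2 * pc c 4) := by ring
    rw [e]
    exact (Polynomial.natDegree_sub_le_of_le
      (Polynomial.natDegree_add_le_of_degree_le h1 h2) h3').trans (by simp)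

lemma na_int {v : AbsoluteValue K ℝ} (hv : IsNonarchimedean v) (k : ℕ) : v (k : K) ≤ 1 :=
  hv.apply_natCast_le_one

end

section
variable {K : Type} [Field K]

/-- bounds for the invariants -/
lemma iI_le {v : AbsoluteValue K ℝ} (hv : IsNonarchimedean v) {a : Fin 5 → K} {B : ℝ}
    (hB : 0 ≤ B) (ha : ∀ i, v (a i) ≤ B) : v (iI a) ≤ B ^ 2 := by
  have hp : ∀ (k : ℕ) (x : K), v x ≤ B ^ 2 → v ((k : K) * x) ≤ B ^ 2 := by
    intro k x hx
    rw [map_mul]
    have h1 := na_int hv k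
    have h2 := v.nonneg x
    nlinarith
  have hm : ∀ i j, v (a i * a j) ≤ B ^ 2 := by
    intro i j
    rw [map_mul, pow_two]
    exact mul_le_mul (ha i) (ha j) (v.nonneg _) hB
  have e : iI a = ((12 : ℕ) : K) * (a 0 * a 4) - ((3 : ℕ) : K) * (a 1 * a 3) + a 2 * a 2 := by
    unfold iI
    push_cast
    ring
  rw [e]
  refine (hv _ _).trans (max_le ?_ (hm 2 2))
  rw [sub_eq_add_neg]
  refine (hv _ _).trans (max_le (hp _ _ (hm 0 4)) ?_)
  rw [v.map_neg]
  exact hp _ _ (hm 1 3)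

lemma iJ_le {v : AbsoluteValue K ℝ} (hv : IsNonarchimedean v) {a : Fin 5 → K} {B : ℝ}
    (hB : 0 ≤ B) (ha : ∀ i, v (a i) ≤ B) : v (iJ a) ≤ B ^ 3 := by
  have hp : ∀ (k : ℕ) (x : K), v x ≤ B ^ 3 → v ((k : K) * x) ≤ B ^ 3 := by
    intro k x hx
    rw [map_mul]
    have h1 := na_int hv k
    have h2 := v.nonneg x
    nlinarith
  have hm : ∀ i j l, v (a i * a j * a l) ≤ B ^ 3 := by
    intro i j l
    rw [map_mul, map_mul, pow_succ, pow_two]
    exact mul_le_mul (mul_le_mul (ha i) (ha j) (v.nonneg _) hB) (ha l) (v.nonneg _)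
      (mul_nonneg hB hB)
  have e : iJ a = ((72 : ℕ) : K) * (a 0 * a 2 * a 4) + ((9 : ℕ) : K) * (a 1 * a 2 * a 3) +
      -(((27 : ℕ) : K) * (a 0 * a 3 * a 3)) + -(((27 : ℕ) : K) * (a 4 * a 1 * a 1)) +
      -(((2 : ℕ) : K) * (a 2 * a 2 * a 2)) := by
    unfold iJ
    push_cast
    ring
  rw [e]
  refine (hv _ _).trans (max_le ((hv _ _).trans (max_le ((hv _ _).trans (max_le
    ((hv _ _).trans (max_le (hp _ _ (hm _ _ _)) (hp _ _ (hm _ _ _)))) ?_)) ?_)) ?_) <;>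
  · rw [v.map_neg]
    exact hp _ _ (hm _ _ _)

end

/-- ORD: the order of the torsion points in the family is less than any power of the height. -/
theorem ord (h1 : S_TRN) (h2 : S_GLB) (h3 : S_SEL) : S_ORD := by
  intro K _ _ c M
  classical
  obtain ⟨C, hC, hsel⟩ := h3 K (pd c) 24 (pd_deg c)
    ((Finset.univ : Finset (Fin 5 × Fin 5)).image fun ij => c ij.1 ij.2) M
  refine ⟨C, hC, ?_⟩
  intro s t w N hN hT
  obtain ⟨hw, hwq, hd, hP⟩ := hT
  obtain ⟨v, hvn, p, hG, hS, hvP, F, hF, ρ, hcard, hρ⟩ := hsel t (by rw [pd_eval]; exact hd)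
  set a := cx c ![1, t] with ha
  have hv := hG.na
  obtain ⟨m, hm0, hm⟩ := exists_m v t
  have hmpos : 0 < v m := v.pos hm0
  have e2 : v (2 : K) = 1 := by
    have := hG.unit 2 (by norm_num) (by have := hG.p5; omega)
    exact_mod_cast this
  have e3 : v (3 : K) = 1 := by
    have := hG.unit 3 (by norm_num) (by have := hG.p5; omega)
    exact_mod_cast this
  have hc : ∀ i j, v (c i j) ≤ 1 := by
    intro i j
    rcases eq_or_ne (c i j) 0 with h | h
    · rw [h, map_zero]; exact zero_le_one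
    · exact (hS (c i j) (Finset.mem_image.2 ⟨(i, j), Finset.mem_univ _, rfl⟩) h).le
  have hai : ∀ i, v (a i) ≤ v m ^ 4 := by
    intro i
    rw [hm]
    exact bq_le_na hv (c i) t (hc i)
  -- the short model
  set q₁ := tay a s 0 with hq1
  set q₂ := tay a s 1 with hq2
  set q₃ := tay a s 2 with hq3
  set q₄ := tay a s 3 with hq4
  set r : K := -q₂ / 3 with hr
  have h30 : (3 : K) ≠ 0 := by norm_num
  have hu0 : m ^ 2 ≠ 0 := pow_ne_zero 2 hm0
  have hdsc : dsc q₂ (rb w q₁ q₃ q₄) (rc w q₁ q₂ q₃ q₄) ≠ 0 := by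
    rw [hq1, hq2, hq3, hq4, dsc_tay a s w hwq]
    exact hd
  have hP2 := h1 K q₂ (rb w q₁ q₃ q₄) (rc w q₁ q₂ q₃ q₄) (xs w q₁ q₂) (ys w q₁ q₂ q₃) (m ^ 2) r N
    hu0 hdsc hP
  set a' : K := (q₂ + 3 * r) / (m ^ 2) ^ 2 with ha'
  set b' : K := (rb w q₁ q₃ q₄ + 2 * r * q₂ + 3 * r ^ 2) / (m ^ 2) ^ 4 with hb'
  set c' : K := (rc w q₁ q₂ q₃ q₄ + r * rb w q₁ q₃ q₄ + r ^ 2 * q₂ + r ^ 3) / (m ^ 2) ^ 6 with hc'
  set x' : K := (xs w q₁ q₂ - r) / (m ^ 2) ^ 2 with hx'
  set y' : K := ys w q₁ q₂ q₃ / (m ^ 2) ^ 3 with hy'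
  have va : v a' ≤ 1 := by
    have : a' = 0 := by
      rw [ha', hr]
      field_simp
      ring
    rw [this, map_zero]
    exact zero_le_one
  have hmn := hmpos.le
  have vb : v b' ≤ 1 := by
    have hb2 : b' = -(iI a) / 3 / (m ^ 2) ^ 4 := by
      rw [hb', hr, hq1, hq2, hq3, hq4, short_b a s w hwq]
    rw [hb2, map_div₀, map_div₀, v.map_neg, e3, div_one, map_pow, map_pow,
      div_le_one (by positivity)]
    calc v (iI a) ≤ (v m ^ 4) ^ 2 := iI_le hv (by positivity) hai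
      _ = (v m ^ 2) ^ 4 := by ring
  have e27 : v (27 : K) = 1 := by
    have : (27 : K) = 3 ^ 3 := by norm_num
    rw [this, map_pow, e3, one_pow]
  have vc : v c' ≤ 1 := by
    have hc2 : c' = -(iJ a) / 27 / (m ^ 2) ^ 6 := by
      rw [hc', hr, hq1, hq2, hq3, hq4, short_c a s w hwq]
    rw [hc2, map_div₀, map_div₀, v.map_neg, e27, div_one, map_pow, map_pow,
      div_le_one (by positivity)]
    calc v (iJ a) ≤ (v m ^ 4) ^ 3 := iJ_le hv (by positivity) hai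
      _ = (v m ^ 2) ^ 6 := by ring
  have hdsc' : dsc a' b' c' = dc (a 0) (a 1) (a 2) (a 3) (a 4) / (m ^ 2) ^ 12 := by
    rw [ha', hb', hc', dsc_shift _ _ _ _ _ hu0, hq1, hq2, hq3, hq4, dsc_tay a s w hwq]
  have vd : v (dsc a' b' c') = 1 := by
    rw [hdsc', map_div₀, ha, ← pd_eval, hvP, map_pow, map_pow, hm]
    rw [div_eq_one_iff_eq (by positivity)]
    ring
  have hd' : dsc a' b' c' ≠ 0 := by
    intro h
    rw [h, map_zero] at vd
    exact zero_ne_one vd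
  letI : DecidableEq K := Classical.decEq K
  obtain ⟨hns, hN0⟩ := hP2
  obtain ⟨M', hM1, hM2, hFm⟩ := exists_mult hv va vb vc e2 vd ρ hρ
    (.some x' y' hns : Pt a' b' c')
  have hzero : M' • (.some x' y' hns : Pt a' b' c') = 0 := by
    by_contra hne
    have hN1 : N • (M' • (.some x' y' hns : Pt a' b' c')) = 0 := by
      rw [smul_smul, mul_comm, ← smul_smul, hN0, smul_zero]
    generalize hQ : M' • (.some x' y' hns : Pt a' b' c') = Q at hne hFm hN1
    rcases Q with _ | ⟨x₃, y₃, h₃⟩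
    · exact hne rfl
    · have h4 := h2 K v p hG a' b' c' x₃ y₃ va vb vc hd' N hN ⟨h₃, hN1⟩
      rw [pow_zero, mul_one] at h4
      exact absurd (hFm x₃ y₃ h₃ rfl) (not_lt.2 h4)
  have hback := h1 K a' b' c' x' y' (1 / m ^ 2) (-r / (m ^ 2) ^ 2) M'
    (one_div_ne_zero hu0) hd' ⟨hns, hzero⟩
  have g1 : (a' + 3 * (-r / (m ^ 2) ^ 2)) / (1 / m ^ 2) ^ 2 = q₂ := by
    rw [ha']
    field_simp
    ring
  have g2 : (b' + 2 * (-r / (m ^ 2) ^ 2) * a' + 3 * (-r / (m ^ 2) ^ 2) ^ 2) / (1 / m ^ 2) ^ 4 =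
      rb w q₁ q₃ q₄ := by
    rw [hb', ha']
    field_simp
    ring
  have g3 : (c' + (-r / (m ^ 2) ^ 2) * b' + (-r / (m ^ 2) ^ 2) ^ 2 * a' +
      (-r / (m ^ 2) ^ 2) ^ 3) / (1 / m ^ 2) ^ 6 = rc w q₁ q₂ q₃ q₄ := by
    rw [hc', hb', ha']
    field_simp
    ring
  have g4 : (x' - -r / (m ^ 2) ^ 2) / (1 / m ^ 2) ^ 2 = xs w q₁ q₂ := by
    rw [hx']
    field_simp
    ring
  have g5 : y' / (1 / m ^ 2) ^ 3 = ys w q₁ q₂ q₃ := by
    rw [hy']
    field_simp
  rw [g1, g2, g3, g4, g5] at hback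
  refine ⟨M', by omega, ⟨hw, hwq, hd, hback⟩, ?_⟩
  refine le_trans ?_ hcard
  exact pow_le_pow_left₀ (Nat.cast_nonneg _) (by exact_mod_cast hM2) M

end Pool.Agent.Q237.TT
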